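import Pool.Agent.Lib.MP_a1e562_co.SF.Short

/-!
# Planes of characteristic three given by planar functions: the parallelogram law (helper76)
-/

set_option autoImplicit false

namespace Pool.Agent.TP3

open Configuration

/-- `f` is a planar function (Dembowski, Ostrom): for every `a ≠ 0` the map
`x ↦ f (x + a) - f x` is bijective. -/
def Planar {V W : Type} [AddCommGroup V] [AddCommGroup W] (f : V → W) : Prop :=
  ∀ a : V, a ≠ 0 → Function.Bijective (fun x : V => f (x + a) - f x)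

/-! ## Points and lines -/

/-- Points and lines of a plane which contains the lines `x = c` and `y = f (x - a) + b`. -/
structure PFC (P L V W : Type) [Membership P L] [AddCommGroup V] [AddCommGroup W]
    (f : V → W) where
  inf : L
  Z : P
  pt : V → W → P
  sl : V → P
  vt : V → L
  ln : V → W → L
  pt_inj : ∀ x y x' y', pt x y = pt x' y' → x = x' ∧ y = y'
  pt_inf : ∀ x y, pt x y ∉ inf
  pt_vt : ∀ x y c, pt x y ∈ vt c ↔ x = c
  pt_ln : ∀ a b x y, pt x y ∈ ln a b ↔ y = f (x - a) + b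
  sl_inf : ∀ a, sl a ∈ inf
  sl_ln : ∀ a b, sl a ∈ ln a b
  Z_inf : Z ∈ inf
  Z_vt : ∀ c, Z ∈ vt c
  Z_sl : ∀ a, Z ≠ sl a

theorem PF_line {P L : Type} [Membership P L] [ProjectivePlane P L] {p q : P} {l m : L}
    (hpq : p ≠ q) (h1 : p ∈ l) (h2 : q ∈ l) (h3 : p ∈ m) (h4 : q ∈ m) : l = m :=
  (Nondegenerate.eq_or_eq h1 h2 h3 h4).resolve_left hpq

theorem PF_pt {P L : Type} [Membership P L] [ProjectivePlane P L] {p q : P} {l m : L}
    (hlm : l ≠ m) (h1 : p ∈ l) (h2 : q ∈ l) (h3 : p ∈ m) (h4 : q ∈ m) : p = q :=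
  (Nondegenerate.eq_or_eq h1 h2 h3 h4).resolve_right hlm

/-- not all points but one lie on a line -/
theorem PF_two {P L : Type} [Membership P L] [ProjectivePlane P L] (ℓ : L) (o : P)
    (h : ∀ q : P, q ≠ o → q ∈ ℓ) : False := by
  obtain ⟨p1, p2, p3, l1, l2, l3, h12, h13, h21, h22, h23, h31, h32, h33⟩ :=
    ProjectivePlane.exists_config (P := P) (L := L)
  have n12 : p1 ≠ p2 := fun e => h12 (e ▸ h22)
  have n13 : p1 ≠ p3 := fun e => h12 (e ▸ h32)
  have n23 : p2 ≠ p3 := fun e => h33 (e ▸ h23)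
  by_cases e1 : p1 = o
  · have i2 : p2 ∈ ℓ := h _ (fun e => n12 (e1.trans e.symm))
    have i3 : p3 ∈ ℓ := h _ (fun e => n13 (e1.trans e.symm))
    have hl3 : l3 ≠ ℓ := fun e => h33 (e ▸ i3)
    have hl : l3 ≠ l1 := fun e => h21 (e ▸ h23)
    obtain ⟨x, hx3, hx1⟩ : ∃ x : P, x ∈ l3 ∧ x ∈ l1 :=
      ⟨HasPoints.mkPoint hl, HasPoints.mkPoint_ax hl⟩
    have hxo : x ≠ o := fun e => h13 (by rw [e1, ← e]; exact hx3)
    have hx : x = p2 := PF_pt hl3 hx3 h23 (h x hxo) i2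
    exact h21 (hx ▸ hx1)
  · have i1 : p1 ∈ ℓ := h _ e1
    have hl2 : l2 ≠ ℓ := fun e => h12 (e ▸ i1)
    have hl : l1 ≠ l2 := fun e => h21 (e ▸ h22)
    obtain ⟨x, hx1, hx2⟩ : ∃ x : P, x ∈ l1 ∧ x ∈ l2 :=
      ⟨HasPoints.mkPoint hl, HasPoints.mkPoint_ax hl⟩
    by_cases e2 : p2 = o
    · have i3 : p3 ∈ ℓ := h _ (fun e => n23 (e2.trans e.symm))
      have hxo : x ≠ o := fun e => h21 (by rw [e2, ← e]; exact hx1)
      have hx : x = p3 := PF_pt hl2 hx2 h32 (h x hxo) i3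
      exact h31 (hx ▸ hx1)
    · have i2 : p2 ∈ ℓ := h _ e2
      have e3 : p3 = o := by
        by_contra e3
        exact hl2 (PF_line n23 h22 h32 i2 (h _ e3))
      have hxo : x ≠ o := fun e => h31 (by rw [e3, ← e]; exact hx1)
      have hx : x = p2 := PF_pt hl2 hx2 h22 (h x hxo) i2
      exact h21 (hx ▸ hx1)

/-- four distinct members of a set with four elements are all its members -/
theorem PF_four {P : Type} {S : Set P} (h : S.ncard = 4) {a b c d : P} (ha : a ∈ S) (hb : b ∈ S)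
    (hc : c ∈ S) (hd : d ∈ S) (hab : a ≠ b) (hac : a ≠ c) (had : a ≠ d) (hbc : b ≠ c)
    (hbd : b ≠ d) (hcd : c ≠ d) : ∀ x ∈ S, x = a ∨ x = b ∨ x = c ∨ x = d := by
  classical
  intro x hx
  by_contra hne
  push Not at hne
  obtain ⟨h1, h2, h3, h4⟩ := hne
  have hf : S.Finite := Set.finite_of_ncard_ne_zero (by rw [h]; norm_num)
  have hsub : ((({x, a, b, c, d} : Finset P)) : Set P) ⊆ S := by
    intro y hy
    simp only [Finset.coe_insert, Finset.coe_singleton, Set.mem_insert_iff,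
      Set.mem_singleton_iff] at hy
    rcases hy with rfl | rfl | rfl | rfl | rfl
    · exact hx
    · exact ha
    · exact hb
    · exact hc
    · exact hd
  have h5 := Set.ncard_le_ncard hsub hf
  rw [Set.ncard_coe_finset, h] at h5
  have h6 : ({x, a, b, c, d} : Finset P).card = 5 := by
    rw [Finset.card_insert_of_notMem, Finset.card_insert_of_notMem, Finset.card_insert_of_notMem,
      Finset.card_insert_of_notMem, Finset.card_singleton]
    · simpa using hcd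
    · simp only [Finset.mem_insert, Finset.mem_singleton, not_or]
      exact ⟨hbc, hbd⟩
    · simp only [Finset.mem_insert, Finset.mem_singleton, not_or]
      exact ⟨hab, hac, had⟩
    · simp only [Finset.mem_insert, Finset.mem_singleton, not_or]
      exact ⟨h1, h2, h3, h4⟩
  omega

/-! ## Planar functions -/

section

variable {V W : Type} [AddCommGroup V] [AddCommGroup W] {f : V → W}

theorem Planar.inj (h : Planar f) {a x y : V} (ha : a ≠ 0)
    (e : f (x + a) - f x = f (y + a) - f y) : x = y := (h a ha).1 e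

/-- no elements of order two -/
theorem Planar.two (h : Planar f) {a : V} (ha : a + a = 0) : a = 0 := by
  by_contra h0
  obtain ⟨u, hu⟩ := (h a h0).2 0
  have hu' : f (u + a) = f u := sub_eq_zero.1 hu
  have h1 : f (u + a + a) - f (u + a) = f (u + a) - f u := by
    rw [add_assoc, ha, add_zero, hu', sub_self]
  have h2 := h.inj h0 h1
  exact h0 (by simpa using h2)

/-- The parallelogram law, from the geometry. -/
theorem PF_par {P L : Type} [Membership P L] [ProjectivePlane P L] (C : PFC P L V W f)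
    (hQ : Quad4 P L) (hpl : Planar f) (hev : ∀ x, f (-x) = f x) (x a : V) :
    f (x + a) + f (x - a) + (f 0 + f 0) = f x + f x + (f a + f a) := by
  by_cases ha : a = 0
  · subst ha
    simp
  by_cases hx : x = 0
  · subst hx
    rw [zero_add, zero_sub, hev]
    abel
  -- the three differences
  have hs : f (x - a) - f a - f x + f 0 ≠ 0 := by
    intro e
    have h1 : f (x + -a) - f x = f (0 + -a) - f 0 := by
      rw [zero_add, hev, ← sub_eq_add_neg]
      have : f (x - a) - f x - (f a - f 0) = 0 := by rw [← e]; abel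
      exact sub_eq_zero.1 this
    exact hx (hpl.inj (neg_ne_zero.2 ha) h1)
  have ht : f (x + a) - f a - f x + f 0 ≠ 0 := by
    intro e
    have h1 : f (x + a) - f x = f (0 + a) - f 0 := by
      rw [zero_add]
      have : f (x + a) - f x - (f a - f 0) = 0 := by rw [← e]; abel
      exact sub_eq_zero.1 this
    exact hx (hpl.inj ha h1)
  have hg : f (x + a) - f (x - a) ≠ 0 := by
    intro e
    have h2a : a + a ≠ 0 := fun h => ha (hpl.two h)
    have h1 : f (x - a + (a + a)) - f (x - a) = f (-a + (a + a)) - f (-a) := by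
      rw [show x - a + (a + a) = x + a by abel, show -a + (a + a) = a by abel, hev, e, sub_self]
    have h2 := hpl.inj h2a h1
    apply hx
    have : x = (x - a) - (-a) := by abel
    rw [this, h2, sub_self]
  have hxx : x ≠ -x := by
    intro e
    have : x + x = 0 := by
      calc x + x = x + x := rfl
        _ = -x + x := by rw [← e]
        _ = 0 := neg_add_cancel x
    exact hx (hpl.two this)
  set g : W := f (x + a) - f (x - a) with hgdef
  -- the quadrangle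
  have lineV : ∀ (c : V) (y y' : W) (l : L), y ≠ y' → C.pt c y ∈ l → C.pt c y' ∈ l →
      l = C.vt c := by
    intro c y y' l hyy h1 h2
    exact PF_line (fun e => hyy (C.pt_inj _ _ _ _ e).2) h1 h2 ((C.pt_vt _ _ _).2 rfl)
      ((C.pt_vt _ _ _).2 rfl)
  have h0g : (0 : W) ≠ g := fun e => hg e.symm
  obtain ⟨S, hA, hB, hA', hB', hS⟩ := hQ (C.pt x 0) (C.pt x g) (C.pt (-x) 0) (C.pt (-x) g)
    (by
      rintro ⟨l, h1, h2, h3⟩
      rw [lineV x 0 g l h0g h1 h2, C.pt_vt] at h3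
      exact hxx h3.symm)
    (by
      rintro ⟨l, h1, h2, h3⟩
      rw [lineV x 0 g l h0g h1 h2, C.pt_vt] at h3
      exact hxx h3.symm)
    (by
      rintro ⟨l, h1, h2, h3⟩
      rw [lineV (-x) 0 g l h0g h2 h3, C.pt_vt] at h1
      exact hxx h1)
    (by
      rintro ⟨l, h1, h2, h3⟩
      rw [lineV (-x) 0 g l h0g h2 h3, C.pt_vt] at h1
      exact hxx h1)
  have nA : C.pt x 0 ≠ C.pt x g := fun e => h0g (C.pt_inj _ _ _ _ e).2
  have nA' : C.pt (-x) 0 ≠ C.pt (-x) g := fun e => h0g (C.pt_inj _ _ _ _ e).2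
  have nAA' : C.pt x 0 ≠ C.pt (-x) 0 := fun e => hxx (C.pt_inj _ _ _ _ e).1
  have nBB' : C.pt x g ≠ C.pt (-x) g := fun e => hxx (C.pt_inj _ _ _ _ e).1
  have nAB' : C.pt x 0 ≠ C.pt (-x) g := fun e => hxx (C.pt_inj _ _ _ _ e).1
  have nA'B : C.pt (-x) 0 ≠ C.pt x g := fun e => hxx (C.pt_inj _ _ _ _ e).1.symm
  -- incidences
  have vv : ∀ c y, C.pt c y ∈ C.vt c := fun c y => (C.pt_vt _ _ _).2 rfl
  have iA0 : C.pt x 0 ∈ C.ln 0 (-f x) := (C.pt_ln _ _ _ _).2 (by rw [sub_zero]; abel)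
  have iA'0 : C.pt (-x) 0 ∈ C.ln 0 (-f x) := (C.pt_ln _ _ _ _).2 (by rw [sub_zero, hev]; abel)
  have iB0 : C.pt x g ∈ C.ln 0 (g - f x) := (C.pt_ln _ _ _ _).2 (by rw [sub_zero]; abel)
  have iB'0 : C.pt (-x) g ∈ C.ln 0 (g - f x) :=
    (C.pt_ln _ _ _ _).2 (by rw [sub_zero, hev]; abel)
  have iAa : C.pt x 0 ∈ C.ln a (-f (x - a)) := (C.pt_ln _ _ _ _).2 (by abel)
  have iB'a : C.pt (-x) g ∈ C.ln a (-f (x - a)) := by
    refine (C.pt_ln _ _ _ _).2 ?_
    rw [show -x - a = -(x + a) by abel, hev, hgdef]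
    abel
  have iA'a : C.pt (-x) 0 ∈ C.ln (-a) (-f (x - a)) := by
    refine (C.pt_ln _ _ _ _).2 ?_
    rw [show -x - -a = -(x - a) by abel, hev]
    abel
  have iBa : C.pt x g ∈ C.ln (-a) (-f (x - a)) := by
    refine (C.pt_ln _ _ _ _).2 ?_
    rw [show x - -a = x + a by abel, hgdef]
    abel
  have vne : ∀ c c' : V, c ≠ c' → C.vt c ≠ C.vt c' := by
    intro c c' h e
    have h1 : C.pt c 0 ∈ C.vt c' := e ▸ vv c 0
    exact h ((C.pt_vt _ _ _).1 h1)
  have vln : ∀ c d b, C.vt c ≠ C.ln d b := by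
    intro c d b e
    have h1 : C.pt c 0 ∈ C.ln d b := e ▸ vv c 0
    have h2 : C.pt c g ∈ C.ln d b := e ▸ vv c g
    rw [C.pt_ln] at h1 h2
    exact h0g (h1.trans h2.symm)
  have lne : ∀ d b b', b ≠ b' → C.ln d b ≠ C.ln d b' := by
    intro d b b' h e
    have h1 : C.pt 0 (f (0 - d) + b) ∈ C.ln d b' := e ▸ (C.pt_ln _ _ _ _).2 rfl
    rw [C.pt_ln] at h1
    exact h (add_left_cancel h1)
  have infv : ∀ c, C.inf ≠ C.vt c := fun c e => C.pt_inf c 0 (e ▸ vv c 0)
  have infl : ∀ d b, C.inf ≠ C.ln d b := fun d b e =>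
    C.pt_inf 0 (f (0 - d) + b) (e ▸ (C.pt_ln _ _ _ _).2 rfl)
  have slne : ∀ d c y, C.sl d ≠ C.pt c y := fun d c y e => C.pt_inf c y (e ▸ C.sl_inf d)
  have Zne : ∀ c y, C.Z ≠ C.pt c y := fun c y e => C.pt_inf c y (e ▸ C.Z_inf)
  -- points of the subplane
  have hZ : C.Z ∈ S := hS.meet _ hA _ hB nA _ hA' _ hB' nA' (C.vt x) (C.vt (-x)) (vne _ _ hxx)
    (vv _ _) (vv _ _) (vv _ _) (vv _ _) _ (C.Z_vt _) (C.Z_vt _)
  have hs0 : C.sl 0 ∈ S := hS.meet _ hA _ hA' nAA' _ hB _ hB' nBB' (C.ln 0 (-f x))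
    (C.ln 0 (g - f x)) (lne _ _ _ (fun e => h0g (by
      have : g = (g - f x) - (-f x) := by abel
      rw [this, ← e, sub_self]))) iA0 iA'0 iB0 iB'0 _ (C.sl_ln _ _) (C.sl_ln _ _)
  have dAB : C.ln a (-f (x - a)) ≠ C.ln (-a) (-f (x - a)) := by
    intro e
    have h1 : C.pt x g ∈ C.ln a (-f (x - a)) := e ▸ iBa
    exact vln x a _ (lineV x 0 g _ h0g iAa h1).symm
  have iDa : C.pt 0 (f a - f (x - a)) ∈ C.ln a (-f (x - a)) := by
    refine (C.pt_ln _ _ _ _).2 ?_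
    rw [zero_sub, hev]
    abel
  have iDa' : C.pt 0 (f a - f (x - a)) ∈ C.ln (-a) (-f (x - a)) := by
    refine (C.pt_ln _ _ _ _).2 ?_
    rw [show (0 : V) - -a = a by abel]
    abel
  have hD : C.pt 0 (f a - f (x - a)) ∈ S := hS.meet _ hA _ hB' nAB' _ hA' _ hB nA'B
    (C.ln a (-f (x - a))) (C.ln (-a) (-f (x - a))) dAB iAa iB'a iA'a iBa _ iDa iDa'
  have hE0 : C.pt 0 (f 0 - f x) ∈ S := hS.meet _ hZ _ hD (Zne _ _) _ hA _ hA' nAA'
    (C.vt 0) (C.ln 0 (-f x)) (vln _ _ _) (C.Z_vt _) (vv _ _) iA0 iA'0 _ (vv _ _)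
    ((C.pt_ln _ _ _ _).2 (by rw [sub_zero]; abel))
  have hE1 : C.pt 0 (f 0 - f x + g) ∈ S := hS.meet _ hZ _ hD (Zne _ _) _ hB _ hB' nBB'
    (C.vt 0) (C.ln 0 (g - f x)) (vln _ _ _) (C.Z_vt _) (vv _ _) iB0 iB'0 _ (vv _ _)
    ((C.pt_ln _ _ _ _).2 (by rw [sub_zero]; abel))
  have hsa : C.sl (-a) ∈ S := hS.meet _ hZ _ hs0 (C.Z_sl 0) _ hA' _ hB nA'B
    C.inf (C.ln (-a) (-f (x - a))) (infl _ _) C.Z_inf (C.sl_inf _) iA'a iBa _ (C.sl_inf _)
    (C.sl_ln _ _)
  -- the line of class `-a` through `E0`, then back with class `0`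
  have hG : C.pt x (f (x + a) + (f 0 - f x - f a)) ∈ S := hS.meet _ hsa _ hE0 (slne _ _ _)
    _ hA _ hB nA (C.ln (-a) (f 0 - f x - f a)) (C.vt x) (vln _ _ _).symm (C.sl_ln _ _)
    ((C.pt_ln _ _ _ _).2 (by rw [show (0 : V) - -a = a by abel]; abel)) (vv _ _) (vv _ _) _
    ((C.pt_ln _ _ _ _).2 (by rw [show x - -a = x + a by abel])) (vv _ _)
  have hH : C.pt 0 (f 0 - f x + (f (x + a) - f a - f x + f 0)) ∈ S :=
    hS.meet _ hs0 _ hG (slne _ _ _) _ hZ _ hD (Zne _ _)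
      (C.ln 0 (f (x + a) + (f 0 - f x - f a) - f x)) (C.vt 0) (vln _ _ _).symm (C.sl_ln _ _)
      ((C.pt_ln _ _ _ _).2 (by rw [sub_zero]; abel)) (C.Z_vt _) (vv _ _) _
      ((C.pt_ln _ _ _ _).2 (by rw [sub_zero]; abel)) (vv _ _)
  -- the four points on `x = 0`
  have h4 := hS.four _ hZ _ hD (Zne _ _) (C.vt 0) (C.Z_vt _) (vv _ _)
  have n1 : C.pt 0 (f 0 - f x) ≠ C.pt 0 (f 0 - f x + g) := by
    intro e
    have := (C.pt_inj _ _ _ _ e).2
    exact hg (by simpa using this)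
  have n2 : C.pt 0 (f 0 - f x) ≠ C.pt 0 (f a - f (x - a)) := by
    intro e
    have h1 := (C.pt_inj _ _ _ _ e).2
    apply hs
    have : f (x - a) - f a - f x + f 0 = (f 0 - f x) - (f a - f (x - a)) := by abel
    rw [this, h1, sub_self]
  have n3 : C.pt 0 (f 0 - f x + g) ≠ C.pt 0 (f a - f (x - a)) := by
    intro e
    have h1 := (C.pt_inj _ _ _ _ e).2
    apply ht
    have : f (x + a) - f a - f x + f 0 = (f 0 - f x + g) - (f a - f (x - a)) := by
      rw [hgdef]; abel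
    rw [this, h1, sub_self]
  rcases PF_four h4 (a := C.Z) (b := C.pt 0 (f 0 - f x)) (c := C.pt 0 (f 0 - f x + g))
    (d := C.pt 0 (f a - f (x - a))) ⟨hZ, C.Z_vt _⟩ ⟨hE0, vv _ _⟩ ⟨hE1, vv _ _⟩ ⟨hD, vv _ _⟩
    (Zne _ _) (Zne _ _) (Zne _ _) n1 n2 n3 _ ⟨hH, vv _ _⟩ with e | e | e | e
  · exact absurd e.symm (Zne _ _)
  · have h1 := (C.pt_inj _ _ _ _ e).2
    exact absurd (by simpa using h1) ht
  · have h1 := add_left_cancel (C.pt_inj _ _ _ _ e).2
    exfalso
    apply hs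
    have : f (x - a) - f a - f x + f 0 = (f (x + a) - f a - f x + f 0) - g := by
      rw [hgdef]; abel
    rw [this, h1, sub_self]
  · have h1 := (C.pt_inj _ _ _ _ e).2
    have h2 : f (x + a) + f (x - a) + (f 0 + f 0) - (f x + f x + (f a + f a)) =
        (f 0 - f x + (f (x + a) - f a - f x + f 0)) - (f a - f (x - a)) := by abel
    rw [h1, sub_self] at h2
    exact sub_eq_zero.1 h2

end

end Pool.Agent.TP3
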