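import Pool.Agent.Lib.MP_a1e562_co.PF.Geo
import Pool.Agent.Lib.MP_a1e562_co.A1

/-!
# Planes of characteristic three given by planar functions are desarguesian (helper76)
-/

set_option autoImplicit false

namespace Pool.Agent.TP3

open Configuration

/-- The plane is given by a planar function whose odd component is additive: there are abelian groups `V`
and `W`, a planar function `f : V → W` such that `x ↦ f x - f (-x)` is additive (for
example an even function), a line `ℓ`, and a bijection of the points off `ℓ` with `V × W` such that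
the lines other than `ℓ` are exactly the sets `x = c` and `y = f (x - a) + b`. -/
def IsPlanarFunctionPlane (P L : Type) [Membership P L] : Prop :=
  ∃ (V W : Type) (_ : AddCommGroup V) (_ : AddCommGroup W) (f : V → W) (ℓ : L)
    (φ : {x : P // x ∉ ℓ} ≃ V × W),
    Planar f ∧
    (∀ x y : V, f (x + y) - f (-(x + y)) = (f x - f (-x)) + (f y - f (-y))) ∧
    (∀ m : L, m ≠ ℓ →
      (∃ c : V, ∀ p : {x : P // x ∉ ℓ}, (p : P) ∈ m ↔ (φ p).1 = c) ∨
      ∃ (a : V) (b : W), ∀ p : {x : P // x ∉ ℓ}, (p : P) ∈ m ↔ (φ p).2 = f ((φ p).1 - a) + b) ∧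
    (∀ c : V, ∃ m : L, m ≠ ℓ ∧ ∀ p : {x : P // x ∉ ℓ}, (p : P) ∈ m ↔ (φ p).1 = c) ∧
    (∀ (a : V) (b : W), ∃ m : L, m ≠ ℓ ∧
      ∀ p : {x : P // x ∉ ℓ}, (p : P) ∈ m ↔ (φ p).2 = f ((φ p).1 - a) + b)

/-! ## coordinates -/

/-- The groups are not trivial. -/
theorem PF_ntr {P L V W : Type} [Membership P L] [ProjectivePlane P L] [AddCommGroup V]
    [AddCommGroup W] (f : V → W) (ℓ : L) (φ : {x : P // x ∉ ℓ} ≃ V × W)
    (hvt : ∀ c : V, ∃ m : L, m ≠ ℓ ∧ ∀ p : {x : P // x ∉ ℓ}, (p : P) ∈ m ↔ (φ p).1 = c)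
    (hln : ∀ (a : V) (b : W), ∃ m : L, m ≠ ℓ ∧
      ∀ p : {x : P // x ∉ ℓ}, (p : P) ∈ m ↔ (φ p).2 = f ((φ p).1 - a) + b) :
    ∃ v : V, v ≠ 0 := by
  by_contra hc
  push Not at hc
  obtain ⟨m, hm0, hm⟩ := hvt 0
  obtain ⟨k, hk0, hk⟩ := hln 0 0
  have hall : ∀ p : P, p ∉ ℓ → p ∈ m := fun p hp => (hm ⟨p, hp⟩).2 (hc _)
  obtain ⟨s, hsk, hsl⟩ : ∃ s : P, s ∈ k ∧ s ∈ ℓ :=
    ⟨HasPoints.mkPoint hk0, HasPoints.mkPoint_ax hk0⟩
  have haff : ∀ p : P, p ∉ ℓ → p ∈ k → p = (φ.symm (0, f 0)).1 := by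
    intro p hp hpk
    have h1 := (hk ⟨p, hp⟩).1 hpk
    have h2 : φ ⟨p, hp⟩ = (0, f 0) := by
      apply Prod.ext
      · exact hc _
      · rw [h1, hc (φ ⟨p, hp⟩).1, sub_zero, add_zero]
    rw [← h2, Equiv.symm_apply_apply]
  refine PF_two m s fun q hqs => ?_
  by_contra hqm
  have hql : q ∈ ℓ := by
    by_contra h
    exact hqm (hall q h)
  by_cases hW : ∃ w : W, w ≠ 0
  · obtain ⟨w, hw⟩ := hW
    set r : P := (φ.symm (0, f 0 + w)).1 with hr
    have hrl : r ∉ ℓ := (φ.symm (0, f 0 + w)).2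
    have hqr : q ≠ r := fun e => hrl (e ▸ hql)
    obtain ⟨n, hn1, hn2⟩ : ∃ n : L, q ∈ n ∧ r ∈ n :=
      ⟨HasLines.mkLine hqr, HasLines.mkLine_ax hqr⟩
    have hnl : n ≠ ℓ := fun e => hrl (e ▸ hn2)
    have hnm : n ≠ m := fun e => hqm (e ▸ hn1)
    have hnk : n ≠ k := by
      intro e
      exact hqs (PF_pt hnl hn1 (e ▸ hsk) hql hsl)
    obtain ⟨z, hz1, hz2⟩ : ∃ z : P, z ∈ n ∧ z ∈ k :=
      ⟨HasPoints.mkPoint hnk, HasPoints.mkPoint_ax hnk⟩
    by_cases hzl : z ∈ ℓ
    · have h1 : z = q := PF_pt hnl hz1 hn1 hzl hql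
      have h2 : z = s := PF_pt hk0 hz2 hsk hzl hsl
      exact hqs (h1.symm.trans h2)
    · have h1 : z = r := PF_pt hnm hz1 hn2 (hall z hzl) (hall r hrl)
      have h2 := haff z hzl hz2
      rw [h1, hr] at h2
      have h3 := φ.symm.injective (Subtype.ext h2)
      have h4 := (Prod.ext_iff.1 h3).2
      exact hw (by simpa using h4)
  · push Not at hW
    refine PF_two ℓ (φ.symm (0, 0)).1 fun p hp => ?_
    by_contra hpl
    apply hp
    have h2 : φ ⟨p, hpl⟩ = (0, 0) := Prod.ext (hc _) (hW _)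
    rw [← h2, Equiv.symm_apply_apply]

/-- Points at infinity. -/
theorem PF_coor {P L V W : Type} [Membership P L] [ProjectivePlane P L] [AddCommGroup V]
    [AddCommGroup W] (f : V → W) (ℓ : L) (φ : {x : P // x ∉ ℓ} ≃ V × W)
    (hvt : ∀ c : V, ∃ m : L, m ≠ ℓ ∧ ∀ p : {x : P // x ∉ ℓ}, (p : P) ∈ m ↔ (φ p).1 = c)
    (hln : ∀ (a : V) (b : W), ∃ m : L, m ≠ ℓ ∧
      ∀ p : {x : P // x ∉ ℓ}, (p : P) ∈ m ↔ (φ p).2 = f ((φ p).1 - a) + b)
    (hW : ∃ w : W, w ≠ 0) : Nonempty (PFC P L V W f) := by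
  obtain ⟨w, hw⟩ := hW
  set ap : V → W → P := fun x y => (φ.symm (x, y)).1 with hap
  have ap_not : ∀ x y, ap x y ∉ ℓ := fun x y => (φ.symm (x, y)).2
  have ap_inj : ∀ x y x' y', ap x y = ap x' y' → x = x' ∧ y = y' := by
    intro x y x' y' h
    have := φ.symm.injective (Subtype.ext h)
    exact Prod.ext_iff.1 this
  have ap_surj : ∀ q : P, q ∉ ℓ → ∃ x y, q = ap x y := by
    intro q hq
    refine ⟨(φ ⟨q, hq⟩).1, (φ ⟨q, hq⟩).2, ?_⟩
    simp [hap]
  choose VT hVT0 hVT1 using hvt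
  choose LN hLN0 hLN1 using hln
  have hVT : ∀ c x y, ap x y ∈ VT c ↔ x = c := by
    intro c x y
    have := hVT1 c (φ.symm (x, y))
    simpa [hap] using this
  have hLN : ∀ a b x y, ap x y ∈ LN a b ↔ y = f (x - a) + b := by
    intro k b x y
    have := hLN1 k b (φ.symm (x, y))
    simpa [hap] using this
  have parV : ∀ c c' : V, ∀ z : P, z ∈ ℓ → z ∈ VT c → z ∈ VT c' := by
    intro c c' z hz hzc
    by_cases h : VT c = VT c'
    · rwa [← h]
    · obtain ⟨x, hx1, hx2⟩ : ∃ x : P, x ∈ VT c ∧ x ∈ VT c' :=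
        ⟨HasPoints.mkPoint h, HasPoints.mkPoint_ax h⟩
      have hxl : x ∈ ℓ := by
        by_contra hxl
        obtain ⟨u, w, rfl⟩ := ap_surj x hxl
        exact h (congrArg VT (((hVT _ _ _).1 hx1).symm.trans ((hVT _ _ _).1 hx2)))
      have : z = x := PF_pt (hVT0 c) hzc hx1 hz hxl
      rw [this]
      exact hx2
  have parL : ∀ a b b', ∀ z : P, z ∈ ℓ → z ∈ LN a b → z ∈ LN a b' := by
    intro k b b' z hz hzc
    by_cases h : LN k b = LN k b'
    · rwa [← h]
    · obtain ⟨x, hx1, hx2⟩ : ∃ x : P, x ∈ LN k b ∧ x ∈ LN k b' :=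
        ⟨HasPoints.mkPoint h, HasPoints.mkPoint_ax h⟩
      have hxl : x ∈ ℓ := by
        by_contra hxl
        obtain ⟨u, w, rfl⟩ := ap_surj x hxl
        have h1 := (hLN _ _ _ _).1 hx1
        have h2 := (hLN _ _ _ _).1 hx2
        exact h (congrArg (LN k) (add_left_cancel (h1.symm.trans h2)))
      have : z = x := PF_pt (hLN0 k b) hzc hx1 hz hxl
      rw [this]
      exact hx2
  obtain ⟨Z, hZV, hZl⟩ : ∃ x : P, x ∈ VT 0 ∧ x ∈ ℓ :=
    ⟨HasPoints.mkPoint (hVT0 0), HasPoints.mkPoint_ax (hVT0 0)⟩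
  have hslex : ∀ a : V, ∃ z : P, z ∈ LN a 0 ∧ z ∈ ℓ := fun a =>
    ⟨HasPoints.mkPoint (hLN0 a 0), HasPoints.mkPoint_ax (hLN0 a 0)⟩
  choose sl hslL hsll using hslex
  refine ⟨{
    inf := ℓ
    Z := Z
    pt := ap
    sl := sl
    vt := VT
    ln := LN
    pt_inj := ap_inj
    pt_inf := ap_not
    pt_vt := fun x y c => hVT c x y
    pt_ln := fun a b x y => hLN a b x y
    sl_inf := hsll
    sl_ln := fun a b => parL a 0 b _ (hsll a) (hslL a)
    Z_inf := hZl
    Z_vt := fun c => parV 0 c Z hZl hZV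
    Z_sl := ?_ }⟩
  intro a e
  have h1 : Z ∈ LN a 0 := e ▸ hslL a
  have h2 : ap 0 (f (0 - a)) ∈ LN a 0 := (hLN _ _ _ _).2 (add_zero _).symm
  have h3 : ap 0 (f (0 - a)) ∈ VT 0 := (hVT _ _ _).2 rfl
  have h4 : Z ≠ ap 0 (f (0 - a)) := fun h => ap_not _ _ (h ▸ hZl)
  have h5 : VT 0 = LN a 0 := PF_line h4 hZV h3 h1 h2
  have h6 : ap 0 (f (0 - a) + w) ∈ LN a 0 := h5 ▸ (hVT _ _ _).2 rfl
  have h7 := (hLN _ _ _ _).1 h6
  exact hw (add_left_cancel h7)

/-! ## algebra -/

section

variable {V W : Type} [AddCommGroup V] [AddCommGroup W]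

/-- the polar form is additive -/
theorem PF_add {f : V → W} (h2 : ∀ w : W, w + w = 0 → w = 0)
    (hp : ∀ x a, f (x + a) + f (x - a) + (f 0 + f 0) = f x + f x + (f a + f a)) (x y z : V) :
    f (x + y + z) + f x + f y + f z = f (x + y) + f (y + z) + f (x + z) + f 0 := by
  have i1 := sub_eq_zero.2 (hp (x + y) z)
  have i2 := sub_eq_zero.2 (hp x (y - z))
  have i3 := sub_eq_zero.2 (hp (x + z) y)
  have i4 := sub_eq_zero.2 (hp y z)
  rw [show x + (y - z) = x + y - z by abel, show x - (y - z) = x + z - y by abel] at i2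
  rw [show x + z + y = x + y + z by abel] at i3
  apply sub_eq_zero.1
  apply h2
  have e : ∀ A B C D E F G H I J K : W,
      (A + H + I + J - (B + C + D + K)) + (A + H + I + J - (B + C + D + K)) =
      (A + E + (K + K) - (B + B + (J + J))) + (A + F + (K + K) - (D + D + (I + I)))
        - (E + F + (K + K) - (H + H + (G + G)))
        - ((C + G + (K + K) - (I + I + (J + J))) + (C + G + (K + K) - (I + I + (J + J)))) := by
    intro A B C D E F G H I J K
    abel
  rw [e (f (x + y + z)) (f (x + y)) (f (y + z)) (f (x + z)) (f (x + y - z)) (f (x + z - y))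
    (f (y - z)) (f x) (f y) (f z) (f 0), i1, i2, i3, i4]
  simp

/-- the polar form -/
def pol (f : V → W) (x y : V) : W := f (x + y) - f x - f y + f 0

theorem pol_symm (f : V → W) (x y : V) : pol f x y = pol f y x := by
  unfold pol
  rw [add_comm y x]
  abel

theorem pol_left {f : V → W} (h : ∀ x y z, f (x + y + z) + f x + f y + f z =
    f (x + y) + f (y + z) + f (x + z) + f 0) (x y z : V) :
    pol f (x + y) z = pol f x z + pol f y z := by
  unfold pol
  apply sub_eq_zero.1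
  have e := sub_eq_zero.2 (h x y z)
  rw [← e]
  abel

theorem pol_zero {f : V → W} (hpl : Planar f) {x y : V} (h : pol f x y = 0) : x = 0 ∨ y = 0 := by
  by_cases hy : y = 0
  · exact Or.inr hy
  left
  refine hpl.inj hy ?_
  rw [zero_add]
  apply sub_eq_zero.1
  rw [← h]
  unfold pol
  abel

end

/-- The theorem for even functions. -/
theorem PF_even {P L V W : Type} [Membership P L] [ProjectivePlane P L] [Finite P] [AddCommGroup V]
    [AddCommGroup W] (hch : CharThree P L) (f : V → W) (ℓ : L) (φ : {x : P // x ∉ ℓ} ≃ V × W)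
    (hpl : Planar f) (hev : ∀ x, f (-x) = f x)
    (hl : ∀ m : L, m ≠ ℓ →
      (∃ c : V, ∀ p : {x : P // x ∉ ℓ}, (p : P) ∈ m ↔ (φ p).1 = c) ∨
      ∃ (a : V) (b : W), ∀ p : {x : P // x ∉ ℓ}, (p : P) ∈ m ↔ (φ p).2 = f ((φ p).1 - a) + b)
    (hvt : ∀ c : V, ∃ m : L, m ≠ ℓ ∧ ∀ p : {x : P // x ∉ ℓ}, (p : P) ∈ m ↔ (φ p).1 = c)
    (hln : ∀ (a : V) (b : W), ∃ m : L, m ≠ ℓ ∧
      ∀ p : {x : P // x ∉ ℓ}, (p : P) ∈ m ↔ (φ p).2 = f ((φ p).1 - a) + b) :
    IsDesarguesian P L := by
  obtain ⟨v, hv⟩ := PF_ntr f ℓ φ hvt hln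
  have hfV : Finite V := by
    have h1 : Finite (V × W) := Finite.of_equiv _ φ
    exact Finite.of_injective (fun v : V => (v, (0 : W))) (fun a b h => (Prod.ext_iff.1 h).1)
  have hfW : Finite W := by
    have h1 : Finite (V × W) := Finite.of_equiv _ φ
    exact Finite.of_injective (fun w : W => ((0 : V), w)) (fun a b h => (Prod.ext_iff.1 h).2)
  have hcard : Nat.card V = Nat.card W := Nat.card_congr (Equiv.ofBijective _ (hpl v hv))
  have hW : ∃ w : W, w ≠ 0 := by
    by_contra hc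
    push Not at hc
    exact hv ((hpl v hv).1 (a₁ := v) (a₂ := 0) ((hc _).trans (hc _).symm))
  have h2 : ∀ w : W, w + w = 0 → w = 0 := by
    intro w hw
    by_contra h0
    have h3 : addOrderOf w = 2 := by
      rw [addOrderOf_eq_prime_iff]
      exact ⟨by rw [two_nsmul]; exact hw, h0⟩
    have h4 : 2 ∣ Nat.card W := h3 ▸ addOrderOf_dvd_natCard w
    rw [← hcard] at h4
    have : Fact (Nat.Prime 2) := ⟨Nat.prime_two⟩
    obtain ⟨u, hu⟩ := exists_prime_addOrderOf_dvd_card' 2 h4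
    have h5 := (addOrderOf_eq_prime_iff.1 hu)
    rw [two_nsmul] at h5
    exact h5.2 (hpl.two h5.1)
  obtain ⟨C⟩ := PF_coor f ℓ φ hvt hln hW
  have hQ : Quad4 P L := s_A1 P L hch
  have hadd := PF_add h2 (PF_par C hQ hpl hev)
  -- the isomorphism of `V` and `W`
  have hb1 : Function.Injective (fun x => pol f x v) := by
    intro x y h
    have h3 : pol f (x - y) v = 0 := by
      have h4 := pol_left hadd (x - y) y v
      rw [sub_add_cancel] at h4
      have h5 : pol f x v = pol f y v := h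
      rw [h5] at h4
      exact (right_eq_add.1 h4)
    rcases pol_zero hpl h3 with h6 | h6
    · exact sub_eq_zero.1 h6
    · exact absurd h6 hv
  let ψ0 : V →+ W := AddMonoidHom.mk' (fun x => pol f x v) (fun x y => pol_left hadd x y v)
  have hψb : Function.Bijective ψ0 := hb1.bijective_of_nat_card_le hcard.ge
  let ψ : V ≃+ W := AddEquiv.ofBijective ψ0 hψb
  -- the new coordinates
  let S : V × W ≃ V × V :=
    { toFun := fun p => (p.1, ψ.symm (p.2 - f p.1))
      invFun := fun p => (p.1, ψ p.2 + f p.1)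
      left_inv := fun p => by
        apply Prod.ext
        · rfl
        · simp
      right_inv := fun p => by
        apply Prod.ext
        · rfl
        · simp }
  have hneg : ∀ x y, pol f x (-y) = -pol f x y := by
    intro x y
    have h3 := pol_left hadd (-y) y x
    rw [neg_add_cancel] at h3
    have h4 : pol f 0 x = 0 := by
      unfold pol
      rw [zero_add]
      abel
    rw [h4, pol_symm f (-y) x, pol_symm f y x] at h3
    exact eq_neg_of_add_eq_zero_left h3.symm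
  have hkey : ∀ x a : V, f (x - a) = f x - pol f x a + (f a - f 0) := by
    intro x a
    have h3 := hneg x a
    unfold pol at h3 ⊢
    rw [← sub_eq_add_neg, hev] at h3
    apply sub_eq_zero.1
    have h4 := sub_eq_zero.2 h3
    rw [← h4]
    abel
  have hconv : ∀ (x a : V) (y b : W), y = f (x - a) + b ↔
      ψ.symm (y - f x) = -ψ.symm (pol f x a) + ψ.symm (f a - f 0 + b) := by
    intro x a y b
    rw [← map_neg, ← map_add, ψ.symm.injective.eq_iff, hkey]
    constructor
    · intro h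
      rw [h]
      abel
    · intro h
      rw [sub_eq_iff_eq_add] at h
      rw [h]
      abel
  refine semifield_short P L hch ⟨V, inferInstance, fun x k => -ψ.symm (pol f x k), ℓ, φ.trans S,
    ?_, ?_, ?_, ?_, ?_, ?_⟩
  · intro x y k
    show -ψ.symm (pol f (x + y) k) = -ψ.symm (pol f x k) + -ψ.symm (pol f y k)
    rw [pol_left hadd, map_add, neg_add]
  · intro x k l
    show -ψ.symm (pol f x (k + l)) = -ψ.symm (pol f x k) + -ψ.symm (pol f x l)
    rw [pol_symm f x (k + l), pol_left hadd, map_add, neg_add, pol_symm f k x, pol_symm f l x]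
  · intro x k h
    have h3 : ψ.symm (pol f x k) = 0 := neg_eq_zero.1 h
    exact pol_zero hpl ((map_eq_zero_iff _ ψ.symm.injective).1 h3)
  · intro m hm
    rcases hl m hm with ⟨c, h⟩ | ⟨a, b, h⟩
    · exact Or.inl ⟨c, h⟩
    · exact Or.inr ⟨a, ψ.symm (f a - f 0 + b), fun p => (h p).trans (hconv _ _ _ _)⟩
  · exact hvt
  · intro k b
    obtain ⟨m, hm, h⟩ := hln k (ψ b - (f k - f 0))
    refine ⟨m, hm, fun p => (h p).trans ((hconv _ _ _ _).trans ?_)⟩
    rw [show f k - f 0 + (ψ b - (f k - f 0)) = ψ b by abel, ψ.symm_apply_apply]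
    exact Iff.rfl

/-- THEOREM. -/
theorem planar_main (P L : Type) [Membership P L] [ProjectivePlane P L] [Finite P]
    (hch : CharThree P L) (h : IsPlanarFunctionPlane P L) : IsDesarguesian P L := by
  obtain ⟨V, W, _, _, f, ℓ, φ, hpl, hodd, hl, hvt, hln⟩ := h
  obtain ⟨v, hv⟩ := PF_ntr f ℓ φ hvt hln
  have hfV : Finite V := by
    have h1 : Finite (V × W) := Finite.of_equiv _ φ
    exact Finite.of_injective (fun v : V => (v, (0 : W))) (fun a b h => (Prod.ext_iff.1 h).1)
  have hfW : Finite W := by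
    have h1 : Finite (V × W) := Finite.of_equiv _ φ
    exact Finite.of_injective (fun w : W => ((0 : V), w)) (fun a b h => (Prod.ext_iff.1 h).2)
  have hcard : Nat.card V = Nat.card W := Nat.card_congr (Equiv.ofBijective _ (hpl v hv))
  have h2 : ∀ w : W, w + w = 0 → w = 0 := by
    intro w hw
    by_contra h0
    have h3 : addOrderOf w = 2 := by
      rw [addOrderOf_eq_prime_iff]
      exact ⟨by rw [two_nsmul]; exact hw, h0⟩
    have h4 : 2 ∣ Nat.card W := h3 ▸ addOrderOf_dvd_natCard w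
    rw [← hcard] at h4
    have : Fact (Nat.Prime 2) := ⟨Nat.prime_two⟩
    obtain ⟨u, hu⟩ := exists_prime_addOrderOf_dvd_card' 2 h4
    have h5 := (addOrderOf_eq_prime_iff.1 hu)
    rw [two_nsmul] at h5
    exact h5.2 (hpl.two h5.1)
  -- doubling is bijective
  let D0 : W →+ W := AddMonoidHom.mk' (fun w => w + w) (fun x y => by abel)
  have hDi : Function.Injective D0 := by
    rw [injective_iff_map_eq_zero]
    exact h2
  have hDb : Function.Bijective D0 := hDi.bijective_of_finite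
  let D : W ≃+ W := AddEquiv.ofBijective D0 hDb
  have hD : ∀ w, D w = w + w := fun w => rfl
  set δ : V → W := fun x => f x - f (-x) with hδ
  have hδadd : ∀ x y, δ (x + y) = δ x + δ y := hodd
  have hδ0 : δ 0 = 0 := by
    simp [hδ]
  have hδneg : ∀ x, δ (-x) = -δ x := by
    intro x
    simp [hδ]
  set g : V → W := fun x => f x + f (-x) with hgdef
  have hg : ∀ x, g x = f x + f x - δ x := by
    intro x
    simp only [hgdef, hδ]
    abel
  have hgev : ∀ x, g (-x) = g x := by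
    intro x
    simp only [hgdef, neg_neg]
    abel
  have hgpl : Planar g := by
    intro a ha
    have h3 : (fun x => g (x + a) - g x) = fun x => D (f (x + a) - f x) + -δ a := by
      funext x
      rw [hg, hg, hδadd, hD]
      abel
    rw [h3]
    have h4 : Function.Bijective (fun x => D (f (x + a) - f x)) := D.bijective.comp (hpl a ha)
    exact (Equiv.addRight (-δ a)).bijective.comp h4
  let S : V × W ≃ V × W :=
    { toFun := fun p => (p.1, D p.2 - δ p.1)
      invFun := fun p => (p.1, D.symm (p.2 + δ p.1))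
      left_inv := fun p => by
        apply Prod.ext
        · rfl
        · simp
      right_inv := fun p => by
        apply Prod.ext
        · rfl
        · simp }
  have hconv : ∀ (x a : V) (y b : W), y = f (x - a) + b ↔
      D y - δ x = g (x - a) + (D b - δ a) := by
    intro x a y b
    rw [← D.injective.eq_iff, map_add, hg, sub_eq_add_neg x a, hδadd, hδneg, hD (f _)]
    constructor
    · intro h
      rw [h]
      abel
    · intro h
      rw [sub_eq_iff_eq_add] at h
      rw [h]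
      abel
  refine PF_even hch g ℓ (φ.trans S) hgpl hgev ?_ hvt ?_
  · intro m hm
    rcases hl m hm with ⟨c, h⟩ | ⟨a, b, h⟩
    · exact Or.inl ⟨c, h⟩
    · exact Or.inr ⟨a, D b - δ a, fun p => (h p).trans (hconv _ _ _ _)⟩
  · intro a b
    obtain ⟨m, hm, h⟩ := hln a (D.symm (b + δ a))
    refine ⟨m, hm, fun p => (h p).trans ((hconv _ _ _ _).trans ?_)⟩
    rw [D.apply_symm_apply, add_sub_cancel_right]
    exact Iff.rfl

end Pool.Agent.TP3
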