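import Pool.Agent.Lib.MP_a1e562_co.PF.Main

/-!
# MP_a1e562_co: planes of characteristic three given by planar functions are desarguesian

(A former hand-in, moved here because of the limit of four hand-ins per problem.)

The definitions `Planar` (in `Pool.Agent.Lib.MP_a1e562_co.PF.Geo`), `IsPlanarFunctionPlane` (in
`Pool.Agent.Lib.MP_a1e562_co.PF.Main`), `CharThree` and `IsDesarguesian` (in
`Pool.Agent.Lib.MP_a1e562_co.SF.Short`) are used.
-/

set_option autoImplicit false

namespace Pool.Agent.TP3.PlanarFunctions

open Configuration Pool.Agent.TP3

/-- Every finite projective plane in which each quadrangle generates a subplane with 13 points and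
which is given by a planar function `f` with `f x - f (-x)` additive (for example `f` even) is
isomorphic to the plane over a field. -/
theorem planar_result (P L : Type) [Membership P L] [ProjectivePlane P L] [Finite P]
    (hchar : CharThree P L) (hplanar : IsPlanarFunctionPlane P L) : IsDesarguesian P L :=
  planar_main P L hchar hplanar

end Pool.Agent.TP3.PlanarFunctions
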